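import Pool.Agent.H.MP_b542c4_co.Sym

set_option autoImplicit false

namespace Pool.Agent.Results.MP_b542c4_co.Astral
open Pool.Agent.H.MP_b542c4_co

/-- combinatorial 4-configuration with point set `α`, line set `β`, incidence `I` -/
def Config4 {α β : Type} (I : α → β → Prop) : Prop :=
  Finite α ∧ Finite β ∧ Nat.card α = Nat.card β ∧
    (∀ l, {p | I p l}.ncard = 4) ∧ (∀ p, {l | I p l}.ncard = 4) ∧
    ∀ p q, p ≠ q → {l | I p l ∧ I q l}.Subsingleton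

/-- geometric realization in the Euclidean plane `ℂ` -/
def Realizes {α β : Type} (I : α → β → Prop) (P : α → ℂ) (L : β → AffineSubspace ℝ ℂ) : Prop :=
  Function.Injective P ∧ Function.Injective L ∧
    (∀ l, Module.finrank ℝ (L l).direction = 1) ∧ ∀ p l, P p ∈ L l ↔ I p l

/-- `g` maps the set of points onto itself and the set of lines onto itself -/
def IsSym {α β : Type} (P : α → ℂ) (L : β → AffineSubspace ℝ ℂ) (g : ℂ ≃ᵢ ℂ) : Prop :=
  g '' Set.range P = Set.range P ∧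
    (fun s : Set ℂ => g '' s) '' Set.range (fun l => (L l : Set ℂ)) =
      Set.range (fun l => (L l : Set ℂ))

/-- the realization is `k`-astral with symmetry group dihedral of order `2 m` -/
def IsAstral {α β : Type} (k m : ℕ) (I : α → β → Prop) (P : α → ℂ)
    (L : β → AffineSubspace ℝ ℂ) : Prop :=
  (∃ G : Subgroup (ℂ ≃ᵢ ℂ), (∀ g, g ∈ G ↔ IsSym P L g) ∧ Nonempty (G ≃* DihedralGroup m)) ∧
  ∃ (oP : α → Fin k) (oL : β → Fin k),
    (∀ p q, oP p = oP q ↔ ∃ g, IsSym P L g ∧ g (P p) = P q) ∧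
    (∀ l l', oL l = oL l' ↔ ∃ g, IsSym P L g ∧ g '' (L l : Set ℂ) = L l') ∧
    (∀ j, {p | oP p = j}.ncard = m) ∧ (∀ j, {l | oL l = j}.ncard = m) ∧
    (∀ j, ∃ c z : ℂ, z ≠ 0 ∧ P '' {p | oP p = j} =
      Set.range fun t : ℕ => c + z * Complex.exp (2 * Real.pi * Complex.I * t / m)) ∧
    (∀ p, ∃ a b, a ≠ b ∧ {l | I p l ∧ oL l = a}.ncard = 2 ∧ {l | I p l ∧ oL l = b}.ncard = 2) ∧
    (∀ l, ∃ a b, a ≠ b ∧ {p | I p l ∧ oP p = a}.ncard = 2 ∧ {p | I p l ∧ oP p = b}.ncard = 2)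

theorem nc {s : Set Ix} {n : ℕ} (p : Ix → Prop) [DecidablePred p]
    (h : (Finset.univ.filter p).card = n) (hs : s = {x | p x}) : s.ncard = n := by
  rw [← h, ← Set.ncard_coe_finset, hs]
  congr 1
  ext x
  simp

theorem sym_iff (g : ℂ ≃ᵢ ℂ) : g ∈ iso.range ↔ IsSym PA LA g := by
  refine ⟨?_, fun h => mem_iso g h.1⟩
  rintro ⟨d, rfl⟩
  constructor
  · ext z
    constructor
    · rintro ⟨_, ⟨p, rfl⟩, rfl⟩
      exact ⟨_, (iso_P d p).symm⟩
    · rintro ⟨q, rfl⟩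
      obtain ⟨p, rfl⟩ := aP_surj d q
      exact ⟨_, ⟨p, rfl⟩, iso_P d p⟩
  · ext z
    constructor
    · rintro ⟨_, ⟨p, rfl⟩, rfl⟩
      exact ⟨_, (iso_L d p).symm⟩
    · rintro ⟨q, rfl⟩
      obtain ⟨p, rfl⟩ := aL_surj d q
      exact ⟨_, ⟨p, rfl⟩, iso_L d p⟩

theorem fib : ∀ j : Fin 2, (Finset.univ.filter fun p : Ix => p.1 = j).card = 12 := by
  decide +kernel

theorem result : ∃ (m : ℕ) (α β : Type) (I : α → β → Prop), 2 ≤ m ∧ Nat.card α = 2 * m ∧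
    Config4 I ∧ (∃ P L, Realizes I P L ∧ IsAstral 2 m I P L) ∧
    ∃ P L, Realizes I P L ∧ ∀ p, ∃ x y : ℚ, (P p).re = x ∧ (P p).im = y := by
  refine ⟨12, Ix, Ix, Inc, by norm_num, by simp, ⟨inferInstance, inferInstance, rfl,
    fun l => nc _ (cfg1 l) rfl, fun l => nc _ (cfg2 l) rfl, fun p q h => ?_⟩,
    ⟨PA, LA, realA, ⟨iso.range, sym_iff, ⟨(MonoidHom.ofInjective iso_inj).symm⟩⟩,
      Prod.fst, Prod.fst, ?_, ?_, fun j => nc _ (fib j) rfl, fun j => nc _ (fib j) rfl, ?_,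
      fun p => ⟨0, 1, by decide, nc _ (cfg4 p 0) rfl, nc _ (cfg4 p 1) rfl⟩,
      fun p => ⟨0, 1, by decide, nc _ (cfg5 p 0) rfl, nc _ (cfg5 p 1) rfl⟩⟩,
    pt (Int.castRingHom ℝ) TZ, ln (Int.castRingHom ℝ) TZ,
    real _ TZ Int.cast_injective TZ_inj TZ_det, fun p => ⟨(TZ p).1, (TZ p).2, ?_, ?_⟩⟩
  · intro a ha b hb
    exact Finset.card_le_one.1 (cfg3 p q h) a (by simpa using ha) b (by simpa using hb)
  · rintro ⟨o, i⟩ ⟨o', j⟩
    constructor
    · rintro rfl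
      refine ⟨iso (.r (j - i)), (sym_iff _).1 ⟨_, rfl⟩, ?_⟩
      rw [iso_P, aP]
      simp
    · rintro ⟨g, hg, h⟩
      obtain ⟨d, rfl⟩ := (sym_iff g).2 hg
      rw [iso_P] at h
      rw [← realA.1 h, aP_fst]
  · rintro ⟨o, i⟩ ⟨o', j⟩
    constructor
    · rintro rfl
      refine ⟨iso (.r (j - i)), (sym_iff _).1 ⟨_, rfl⟩, ?_⟩
      rw [iso_L, aL]
      simp
    · rintro ⟨g, hg, h⟩
      obtain ⟨d, rfl⟩ := (sym_iff g).2 hg
      rw [iso_L] at h
      rw [← realA.2.1 (SetLike.coe_injective h), aL_fst]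
  · intro j
    have he : ∀ t : ℕ, 0 + PA (j, 0) * Complex.exp (2 * Real.pi * Complex.I * t / (12 : ℕ)) =
        PA (j, t) := fun t => by
      have := PA_add j 0 t
      rw [zero_add] at this
      rw [this, e, ZMod.toCircle_natCast, zero_add, mul_comm]
    refine ⟨0, PA (j, 0), fun h => ?_, ?_⟩
    · have := PA_add j 0 1
      rw [h, mul_zero, ← h] at this
      exact absurd (realA.1 this) (by simp; decide)
    · simp only [he]
      ext z
      constructor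
      · rintro ⟨⟨o, i⟩, rfl, rfl⟩
        exact ⟨i.val, by simp⟩
      · rintro ⟨t, rfl⟩
        exact ⟨(j, t), rfl, rfl⟩
  · simp [pt]
  · simp [pt]

end Pool.Agent.Results.MP_b542c4_co.Astral
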